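import Pool.Agent.L7h19.FD.Stm
import Pool.Agent.L7h56.IK.Exp5

/-!
# Project FD (helper19; MP_157626_nt): the expansion `S_EFD`
-/

set_option autoImplicit false
set_option linter.all false

namespace Pool.Agent.L7h60.FD

open Finset Polynomial Pool.Agent.W262.RK Pool.Agent.W108.RK Pool.Agent.W762.RK2 Pool.Agent.L7h19.RP
  Pool.Agent.L7h19.IK Pool.Agent.L7h65.IS Pool.Agent.L7h65.IT Pool.Agent.L7h56.IK
open Pool.Agent.L7h19.FD hiding nb Cd
open Pool.Agent.L7h19.RP.AT (gm)
open Pool.Agent.L7h19.RH (Q0)

variable {J : Type} [Fintype J] [DecidableEq J] {z y r : ℕ}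

/-- the class is `c` or `3` -/
def kc (cls : J → Fin 4) (c : Fin 3) (o : Option J) : Bool :=
  tm (fun j => decide (cls j = c.castSucc ∨ cls j = 3)) o

/-- there is a class and it is not `c` -/
def oc (cls : J → Fin 4) (c : Fin 3) (o : Option J) : Bool :=
  tm (fun j => decide (cls j ≠ c.castSucc)) o

/-- the prime divides `Ms` -/
def al (cls : J → Fin 4) (c : Fin 3) (p : ℕ) (o : Option J) (π : Pat) : Bool :=
  tm (fun j => decide ((cls j = c.castSucc ∨ cls j = 3) ∧
    dg (cls j) (zb π) (m4 p) (dc c.castSucc) (dc c.castSucc) = 0)) o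

/-- the sets of the patterns -/
def pt (η : Pr z y → Pat) : Fin 3 → Finset ℕ := fun i => Ts fun p => η p i

lemma mc_Dl (cls : J → Fin 4) (c : Fin 4) (ξ : Pr z y → Option J) :
    mc cls (Dl ξ) c = nb fun p => tm (fun j => decide (cls j = c)) (ξ p) := by
  have h := pP_Dl (fun j => decide (cls j = c)) ξ
  rw [← show Pool.Agent.L7h19.IT.pP (fun j => decide (cls j = c)) (Dl ξ) = mc cls (Dl ξ) c from ?_]
  · exact h
  · unfold Pool.Agent.L7h19.IT.pP mc
    refine Finset.prod_congr ?_ fun _ _ => rfl
    ext j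
    simp

lemma Mo_Dl (cls : J → Fin 4) (c : Fin 3) (ξ : Pr z y → Option J) :
    Mo (mc cls (Dl ξ)) c = nb fun p => oc cls c (ξ p) := by
  have h := pP_Dl (fun j => decide (cls j ≠ c.castSucc)) ξ
  rw [← show Pool.Agent.L7h19.IT.pP (fun j => decide (cls j ≠ c.castSucc)) (Dl ξ) =
    Mo (mc cls (Dl ξ)) c from ?_]
  · exact h
  · unfold Pool.Agent.L7h19.IT.pP Mo mc
    have e1 : (univ.filter fun j : J => decide (cls j ≠ c.castSucc) = true) =
        univ.filter fun j : J => cls j ∈ univ.filter (fun e : Fin 4 => e ≠ c.castSucc) := by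
      ext j
      simp
    rw [e1]
    exact (Finset.prod_fiberwise_eq_prod_filter univ (univ.filter (fun e : Fin 4 => e ≠ c.castSucc))
      cls (Dl ξ)).symm

lemma cl_Dl (cls : J → Fin 4) (ξ : Pr z y → Option J) (p : Pr z y) (j : J) (h : ξ p = some j) :
    cl (mc cls (Dl ξ)) p = cls j := by
  have h1 : ∀ c, (p : ℕ) ∣ mc cls (Dl ξ) c ↔ cls j = c := by
    intro c
    rw [mc_Dl, dvd_nb, h]
    simp [tm]
  unfold cl
  simp only [h1]
  generalize cls j = e
  fin_cases e <;> simp

lemma nb_pt (η : Pr z y → Pat) (p : Pr z y) : Pool.Agent.L7h19.FD.nb (pt η) p = zb (η p) := by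
  funext i
  unfold Pool.Agent.L7h19.FD.nb pt zb
  simp only [mem_Ts]

lemma Ms_Dl (cls : J → Fin 4) (c : Fin 3) (ξ : Pr z y → Option J) (η : Pr z y → Pat) :
    Ms (mc cls (Dl ξ)) (pt η) c = nb fun p => al cls c p (ξ p) (η p) := by
  have h1 : (mc cls (Dl ξ) c.castSucc * mc cls (Dl ξ) 3).primeFactors =
      Ts fun p => kc cls c (ξ p) := by
    rw [mc_Dl, mc_Dl, Nat.primeFactors_mul (nb_ne_zero _) (nb_ne_zero _), nb_pf, nb_pf]
    unfold Ts
    rw [← Finset.map_union, ← Finset.filter_or]
    congr 1
    refine Finset.filter_congr fun p _ => ?_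
    beta_reduce
    cases h : ξ p with
    | none => simp [kc, tm]
    | some j => simp [kc, tm]
  unfold Ms
  rw [h1, Finset.prod_filter]
  unfold Ts
  rw [Finset.prod_map, Finset.prod_filter]
  unfold nb
  refine Finset.prod_congr rfl fun p _ => ?_
  show (if kc cls c (ξ p) = true then
    (if dg (cl (mc cls (Dl ξ)) p) (Pool.Agent.L7h19.FD.nb (pt η) p) (m4 p) (dc c.castSucc)
      (dc c.castSucc) = 0 then (p : ℕ) else 1) else 1) = _
  rw [nb_pt]
  beta_reduce
  cases h : ξ p with
  | none => simp [kc, al, tm]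
  | some j =>
    rw [cl_Dl cls ξ p j h]
    simp only [kc, al, tm, Option.elim, decide_eq_true_eq]
    by_cases h2 : cls j = c.castSucc ∨ cls j = 3
    · simp [h2]
    · simp [h2]

lemma Q0_Dl (ξ : Pr z y → Option J) :
    Q0 (Dl ξ) = (nb fun p => (ξ p).isSome).primeFactors := by
  unfold Q0
  rw [prod_Dl]

lemma WE_Dl (W : J → Pat → ℕ → ℝ) (ξ : Pr z y → Option J) (η : Pr z y → Pat) :
    WE W (Dl ξ) (pt η) = ∏ p : Pr z y, (ξ p).elim 1 fun j => W j (η p) p := by
  have h := Pool.Agent.L7h19.RP.prod_gm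
    (fun j (p : ℕ) => W j (fun i => decide (p ∈ pt η i)) p) ξ
  unfold WE
  refine Eq.trans ?_ (h.trans ?_)
  · rfl
  · refine Finset.prod_congr rfl fun p _ => ?_
    cases ξ p with
    | none => rfl
    | some j =>
      have e : (fun i => decide ((p : ℕ) ∈ pt η i)) = η p := by
        funext i
        unfold pt
        simp only [mem_Ts, Bool.decide_eq_true]
      simp only [Option.elim, e]

lemma sum_pw3 (a : Pr z y → Bool) (G : (Fin 3 → Finset ℕ) → ℝ) :
    ∑ E ∈ Fintype.piFinset (fun _ : Fin 3 => (nb a).primeFactors.powerset), G E =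
      ∑ η : Pr z y → Pat, if ∀ p i, η p i = true → a p = true then G (pt η) else 0 := by
  have key : ∀ E : Finset ℕ, E ⊆ Ts a → Ts (fun p : Pr z y => decide ((p : ℕ) ∈ E)) = E := by
    intro E hE
    ext q
    constructor
    · intro hq
      unfold Ts at hq
      rw [Finset.mem_map] at hq
      obtain ⟨r, hr, hrq⟩ := hq
      have h1 := of_decide_eq_true (mem_filter.1 hr).2
      have h2 : (r : ℕ) = q := hrq
      rwa [h2] at h1
    · intro hq
      have h1 := hE hq
      unfold Ts at h1
      rw [Finset.mem_map] at h1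
      obtain ⟨r, hr, hrq⟩ := h1
      have h2 : (r : ℕ) = q := hrq
      rw [← h2]
      refine (mem_Ts _ r).2 (decide_eq_true ?_)
      rwa [h2]
  rw [nb_pf, ← Finset.sum_filter]
  refine Finset.sum_nbij' (fun E => fun p i => decide ((p : ℕ) ∈ E i)) (fun η => pt η) ?_ ?_ ?_ ?_ ?_
  · intro E hE
    rw [Fintype.mem_piFinset] at hE
    rw [mem_filter]
    refine ⟨mem_univ _, fun p i hp => ?_⟩
    exact (mem_Ts a p).1 (Finset.mem_powerset.1 (hE i) (of_decide_eq_true hp))
  · intro η hη
    rw [Fintype.mem_piFinset]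
    intro i
    rw [Finset.mem_powerset]
    intro q hq
    unfold pt Ts at hq
    rw [Finset.mem_map] at hq
    obtain ⟨r, hr, hrq⟩ := hq
    have h2 : (r : ℕ) = q := hrq
    rw [← h2]
    exact (mem_Ts a r).2 ((mem_filter.1 hη).2 r i (mem_filter.1 hr).2)
  · intro E hE
    rw [Fintype.mem_piFinset] at hE
    funext i
    exact key (E i) (Finset.mem_powerset.1 (hE i))
  · intro η hη
    funext p i
    unfold pt
    simp only [mem_Ts, Bool.decide_eq_true]
  · intro E hE
    rw [Fintype.mem_piFinset] at hE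
    congr 1
    funext i
    exact (key (E i) (Finset.mem_powerset.1 (hE i))).symm

/-- the symbol, `1` on the diagonal -/
noncomputable def SS (q p : Pr z y) : ℝ := if q = p then 1 else Jr ((q : ℕ) : ℤ) p

/-- the product of the symbols -/
noncomputable def OF (μ : Pr z y → Mk r) : ℝ :=
  ∏ p : Pr z y, ∏ q : Pr z y, if (μ q).1 ⬝ᵥ (μ p).2 ≠ 0 then SS q p else 1

lemma sn_sq (a : ZMod 2) : (sn a : ℝ) * (sn a : ℝ) = 1 := by
  unfold sn
  split_ifs <;> norm_num

/-- the sign of the diagonal -/
noncomputable def dd (m : Fin 4 → ℕ) (E : Fin 3 → Finset ℕ) (c : Fin 3) (p : ℕ) : ℝ :=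
  (sn (dg (cl m p) (Pool.Agent.L7h19.FD.nb E p) (m4 p) (dc c.castSucc) (xo c)) : ℝ)

lemma sc_eq (m : Fin 4 → ℕ) (E : Fin 3 → Finset ℕ) (c : Fin 3) (p q : Pr z y) :
    (sc m E c p q : ℝ) = SS q p * (if q = p then dd m E c p else 1) := by
  unfold sc SS dd
  by_cases h : q = p
  · rw [if_pos h, if_pos h, if_pos (by rw [h]), one_mul]
  · rw [if_neg h, if_neg h, if_neg (fun h2 => h (Subtype.ext h2)), mul_one]
    rfl

lemma sc_sq (m : Fin 4 → ℕ) (E : Fin 3 → Finset ℕ) (c : Fin 3) (p q : Pr z y) :
    (sc m E c p q : ℝ) * (sc m E c p q : ℝ) = 1 := by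
  by_cases h : q = p
  · unfold sc
    rw [if_pos (by rw [h])]
    exact sn_sq _
  · rw [sc_eq, if_neg h, mul_one]
    unfold SS
    rw [if_neg h]
    exact Pool.Agent.L7h65.IT.Jr_sq h

lemma prod_S (m : Fin 4 → ℕ) (E : Fin 3 → Finset ℕ) (c : Fin 3) (v x : Pr z y → Ve r) :
    ∏ i, ∏ p ∈ (nb fun p => decide (x p i ≠ 0)).primeFactors,
      ∏ q ∈ (nb fun p => decide (v p i ≠ 0)).primeFactors, (sc m E c p q : ℝ) =
      (OF fun p => (v p, x p)) * ∏ p : Pr z y, if v p ⬝ᵥ x p ≠ 0 then dd m E c p else 1 := by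
  have h1 : ∀ i, ∏ p ∈ (nb fun p => decide (x p i ≠ 0)).primeFactors,
      ∏ q ∈ (nb fun p => decide (v p i ≠ 0)).primeFactors, (sc m E c p q : ℝ) =
      ∏ p : Pr z y, ∏ q : Pr z y,
        (if x p i ≠ 0 then (if v q i ≠ 0 then (sc m E c p q : ℝ) else 1) else 1) := by
    intro i
    rw [prod_pf (fun p : Pr z y => decide (x p i ≠ 0)) fun p =>
      ∏ q ∈ (nb fun p => decide (v p i ≠ 0)).primeFactors, (sc m E c p q : ℝ)]
    refine Finset.prod_congr rfl fun p _ => ?_
    rw [prod_pf (fun p : Pr z y => decide (v p i ≠ 0)) fun q => (sc m E c p q : ℝ)]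
    by_cases h : x p i = 0
    · simp [h]
    · simp only [h, ne_eq, not_false_eq_true, decide_true, if_true, decide_eq_true_eq]
  rw [Finset.prod_congr rfl fun i _ => h1 i, Finset.prod_comm]
  unfold OF
  rw [← Finset.prod_mul_distrib]
  refine Finset.prod_congr rfl fun p _ => ?_
  rw [Finset.prod_comm]
  have h2 : ∀ q : Pr z y, (∏ i, if x p i ≠ 0 then (if v q i ≠ 0 then (sc m E c p q : ℝ) else 1) else 1) =
      (if v q ⬝ᵥ x p ≠ 0 then SS q p else 1) *
        (if q = p then (if v p ⬝ᵥ x p ≠ 0 then dd m E c p else 1) else 1) := by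
    intro q
    rw [chi _ (sc_sq m E c p q) (v q) (x p), sc_eq]
    by_cases h : q = p
    · subst h
      by_cases h3 : v q ⬝ᵥ x q = 0
      · simp [h3]
      · simp [h3]
    · by_cases h3 : v q ⬝ᵥ x p = 0
      · simp [h3, h]
      · simp [h3, h]
  rw [Finset.prod_congr rfl fun q _ => h2 q, Finset.prod_mul_distrib, Finset.prod_ite_eq']
  simp

/-- the marks span -/
def Spf (τ : Bool) (μ : Pr z y → Mk r) : Prop := ∀ w : Ve r, w ≠ 0 →
  ∃ p, w ⬝ᵥ (if τ = true then (μ p).1 else (μ p).2) ≠ 0

instance (τ : Bool) (μ : Pr z y → Mk r) : Decidable (Spf τ μ) := by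
  unfold Spf
  infer_instance

lemma FK_eq (τ : Bool) (a b : ℕ) (m : Fin 4 → ℕ) (E : Fin 3 → Finset ℕ) (c : Fin 3)
    (α β : Pr z y → Bool) (h1 : Ms m E c = nb α) (h2 : Mo m c = nb β) :
    FK τ a b r m E c = ((∏ p : Pr z y, if α p = true then (1 / 2 ^ a : ℝ) else 1) *
      (∏ p : Pr z y, if β p = true then (1 / 2 ^ b : ℝ) else 1)) *
      ∑ μ : Pr z y → Mk r, if (∀ p, Pool.Agent.L7h56.IK.Cd (α p) (β p) (μ p)) ∧ Spf τ μ then
        OF μ * ∏ p : Pr z y, (if (μ p).1 ⬝ᵥ (μ p).2 ≠ 0 then dd m E c p else 1) else 0 := by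
  have h3 : ∀ (g : Pr z y → Bool) (n : ℕ), ((2:ℝ) ^ (n * (nb g).primeFactors.card))⁻¹ =
      ∏ p : Pr z y, if g p = true then (1 / 2 ^ n : ℝ) else 1 := by
    intro g n
    rw [← prod_pf g fun _ => (1 / 2 ^ n : ℝ), Finset.prod_const, pow_mul, ← inv_pow]
    norm_num
  unfold FK
  rw [h1, h2, div_eq_mul_inv, mul_inv, h3 α a, h3 β b, mul_comm]
  congr 1
  rw [sum_dvr α]
  have h4 : ∀ v : Pr z y → Ve r, (if ∀ p, v p ≠ 0 → α p = true then
      (∑ e ∈ Fintype.piFinset (fun _ : Fin r => (nb β).divisors),
        if (if τ = true then Idp r (nb α) (fun i => nb fun p => decide (v p i ≠ 0)) else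
          Idp r (nb β) e) then
        ∏ i, ∏ p ∈ (e i).primeFactors, ∏ q ∈ (nb fun p => decide (v p i ≠ 0)).primeFactors,
          (sc m E c p q : ℝ) else 0) else 0) =
      ∑ x : Pr z y → Ve r, if (∀ p, Pool.Agent.L7h56.IK.Cd (α p) (β p) (v p, x p)) ∧
        Spf τ (fun p => (v p, x p)) then (OF fun p => (v p, x p)) *
          ∏ p : Pr z y, (if v p ⬝ᵥ x p ≠ 0 then dd m E c p else 1) else 0 := by
    intro v
    by_cases hv : ∀ p, v p ≠ 0 → α p = true
    · rw [if_pos hv, sum_dvr β]
      refine Finset.sum_congr rfl fun x _ => ?_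
      by_cases hx : ∀ p, x p ≠ 0 → β p = true
      · rw [if_pos hx, prod_S m E c v x]
        refine if_congr ?_ rfl rfl
        have e1 := Idp_iff α v hv
        have e2 := Idp_iff β x hx
        unfold Spf
        cases τ with
        | true =>
          simp only [if_true]
          rw [e1]
          exact ⟨fun h => ⟨fun p => ⟨hv p, hx p⟩, h⟩, fun h => h.2⟩
        | false =>
          simp only [Bool.false_eq_true, if_false]
          rw [e2]
          exact ⟨fun h => ⟨fun p => ⟨hv p, hx p⟩, h⟩, fun h => h.2⟩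
      · rw [if_neg hx, if_neg fun h => hx fun p => (h.1 p).2]
    · rw [if_neg hv]
      symm
      exact Finset.sum_eq_zero fun x _ => if_neg fun h => hv fun p => (h.1 p).1
  rw [Finset.sum_congr rfl fun v _ => h4 v,
    sum_arr (fun v x : Pr z y → Ve r => if (∀ p, Pool.Agent.L7h56.IK.Cd (α p) (β p) (v p, x p)) ∧
      Spf τ (fun p => (v p, x p)) then (OF fun p => (v p, x p)) *
          ∏ p : Pr z y, (if v p ⬝ᵥ x p ≠ 0 then dd m E c p else 1) else 0)]

/-- the symbols -/
noncomputable def GF (τ : Bool) (μ : Pr z y → Mk r) : ℝ := if Spf τ μ then OF μ else 0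

/-- the sign of the diagonal -/
noncomputable def sg (cls : J → Fin 4) (c : Fin 3) (π : Pat) (p : ℕ) (j : J) (m : Mk r) : ℝ :=
  if m.1 ⬝ᵥ m.2 ≠ 0 then (sn (dg (cls j) (zb π) (m4 p) (dc c.castSucc) (xo c)) : ℝ) else 1

/-- the weight of a prime with the pattern `π`, the class `o` and the marks `m` -/
noncomputable def tF (cls : J → Fin 4) (c : Fin 3) (W : J → Pat → ℕ → ℝ) (a b : ℕ) (π : Pat) (p : ℕ)
    (o : Option J) (m : Mk r) : ℝ :=
  if (∀ i, π i = true → o.isSome = true) ∧
      Pool.Agent.L7h56.IK.Cd (al cls c p o π) (oc cls c o) m then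
    ((if al cls c p o π = true then (1 / 2 ^ a : ℝ) else 1) *
      (if oc cls c o = true then (1 / 2 ^ b : ℝ) else 1)) *
      (o.elim 1 fun j => W j π p) * (o.elim 1 fun j => sg cls c π p j m) else 0

/-- the weights with the marks -/
noncomputable def TF (cls : J → Fin 4) (c : Fin 3) (W : J → Pat → ℕ → ℝ) (a b : ℕ) (p : ℕ)
    (o : Option J) (m : Mk r) : ℝ := ∑ π : Pat, tF cls c W a b π p o m

lemma lhsF (cls : J → Fin 4) (c : Fin 3) (W : J → Pat → ℕ → ℝ) (τ : Bool) (a b : ℕ)
    (ξ : Pr z y → Option J) :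
    avE W (fun E => FK τ a b r (mc cls (Dl ξ)) E c) (Dl ξ) =
      ∑ μ : Pr z y → Mk r, (∏ p : Pr z y, TF cls c W a b p (ξ p) (μ p)) * GF τ μ := by
  unfold avE
  rw [Q0_Dl, sum_pw3]
  have h1 : ∀ η : Pr z y → Pat, (if ∀ p i, η p i = true → (ξ p).isSome = true then
      FK τ a b r (mc cls (Dl ξ)) (pt η) c * WE W (Dl ξ) (pt η) else 0) =
      ∑ μ : Pr z y → Mk r, (∏ p : Pr z y, tF cls c W a b (η p) p (ξ p) (μ p)) * GF τ μ := by
    intro η
    by_cases hη : ∀ p i, η p i = true → (ξ p).isSome = true
    · rw [if_pos hη, FK_eq τ a b (mc cls (Dl ξ)) (pt η) c _ _ (Ms_Dl cls c ξ η) (Mo_Dl cls c ξ),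
        WE_Dl, Finset.mul_sum, Finset.sum_mul]
      refine Finset.sum_congr rfl fun μ _ => ?_
      by_cases hC : ∀ p : Pr z y,
        Pool.Agent.L7h56.IK.Cd (al cls c p (ξ p) (η p)) (oc cls c (ξ p)) (μ p)
      · have e1 : ∀ p : Pr z y, tF cls c W a b (η p) p (ξ p) (μ p) =
            ((if al cls c p (ξ p) (η p) = true then (1 / 2 ^ a : ℝ) else 1) *
            (if oc cls c (ξ p) = true then (1 / 2 ^ b : ℝ) else 1)) *
            ((ξ p).elim 1 fun j => W j (η p) p) *
            (if (μ p).1 ⬝ᵥ (μ p).2 ≠ 0 then dd (mc cls (Dl ξ)) (pt η) c p else 1) := by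
          intro p
          refine (if_pos ⟨hη p, hC p⟩).trans ?_
          congr 1
          cases h : ξ p with
          | none =>
            have h5 := hC p
            rw [h] at h5
            have h6 : (μ p).1 = 0 := by
              by_contra h7
              have h8 := h5.1 h7
              simp [al, tm] at h8
            simp [h6]
          | some j =>
            simp only [Option.elim, sg, dd]
            rw [nb_pt, cl_Dl cls ξ p j h]
        rw [Finset.prod_congr rfl fun p _ => e1 p, Finset.prod_mul_distrib,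
          Finset.prod_mul_distrib, Finset.prod_mul_distrib]
        unfold GF
        by_cases hS : Spf τ μ
        · rw [if_pos ⟨hC, hS⟩, if_pos hS]
          ring
        · rw [if_neg fun h => hS h.2, if_neg hS]
          ring
      · rw [if_neg fun h => hC h.1, mul_zero, zero_mul]
        simp only [not_forall] at hC
        obtain ⟨p, hp⟩ := hC
        rw [Finset.prod_eq_zero (mem_univ p) (if_neg fun h => hp h.2), zero_mul]
    · rw [if_neg hη]
      symm
      refine Finset.sum_eq_zero fun μ _ => ?_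
      simp only [not_forall] at hη
      obtain ⟨p, i, hp1, hp2⟩ := hη
      rw [Finset.prod_eq_zero (mem_univ p) (if_neg fun h => hp2 (h.1 i hp1)), zero_mul]
  rw [Finset.sum_congr rfl fun η _ => h1 η, Finset.sum_comm]
  refine Finset.sum_congr rfl fun μ _ => ?_
  rw [← Finset.sum_mul]
  congr 1
  unfold TF
  rw [Finset.prod_univ_sum, Fintype.piFinset_univ]

/-- the class and the marks -/
def fkF (cls : J → Fin 4) (c : Fin 3) (x : Option (LabF cls c r)) : Option J × Mk r :=
  (x.map fun i => i.1.1, x.elim (0, 0) fun i => i.1.2.1)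

/-- the local weights -/
noncomputable def WF (cls : J → Fin 4) (c : Fin 3) (W : J → Pat → ℕ → ℝ) (a b : ℕ) (p : ℕ)
    (x : Option (LabF cls c r)) : ℝ := x.elim 1 fun i => bF W cls c a b r i p

lemma ph_add (n : Fin 3 → ZMod 2) (ε : ZMod 2) (v e : V2) :
    ph (fun i => n i + 1) ε v e = ph n ε v e + om2 v e := by
  have h2 : (2 : ZMod 2) = 0 := by decide
  unfold ph om2
  linear_combination (e.2 * v.2 + e.1 * v.1) * h2

lemma om2_self : ∀ c : Fin 3, om2 (dc c.castSucc) (dc c.castSucc) = 0 := by decide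

lemma om2_xo : ∀ c : Fin 3, om2 (dc c.castSucc) (xo c) = 1 := by decide

lemma zb_not (π : Pat) : zb (fun i => !(π i)) = fun i => zb π i + 1 := by
  funext i
  unfold zb
  cases h : π i
  · simp [h]
  · simp [h]
    decide

lemma sn_add (a : ZMod 2) : sn (a + 1) = -sn a := by
  revert a
  decide

/-- the weights in terms of the sums -/
lemma TF_some (cls : J → Fin 4) (c : Fin 3) (W : J → Pat → ℕ → ℝ) (hW : WSym W cls) (a b : ℕ) (p : ℕ)
    (j : J) (v w : Ve r) :
    TF cls c W a b p (some j) (v, w) = if AF c (cls j) r v w then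
      (if cls j = c.castSucc ∨ cls j = 3 then
        ((if v = 0 then sw W cls c 1 j p else 0) + sw W cls c 0 j p / 2 ^ a)
        else sw W cls c 0 j p + sw W cls c 1 j p) *
      (if cls j = c.castSucc then 1 else 1 / 2 ^ b) else 0 := by
  have hz : ∀ x : ZMod 2, x ≠ 0 → x = 1 := by decide
  have hsum : ∀ (f : Pat → ℝ) (A B : ℝ), (∀ π, f π =
      (if dg (cls j) (zb π) (m4 p) (dc c.castSucc) (dc c.castSucc) = 0 then A else B) * W j π p) →
      ∑ π, f π = A * sw W cls c 0 j p + B * sw W cls c 1 j p := by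
    intro f A B hf
    unfold sw
    rw [Finset.mul_sum, Finset.mul_sum, Finset.sum_filter, Finset.sum_filter,
      ← Finset.sum_add_distrib]
    refine Finset.sum_congr rfl fun π _ => ?_
    rw [hf π]
    by_cases h : dg (cls j) (zb π) (m4 p) (dc c.castSucc) (dc c.castSucc) = 0
    · simp [h]
    · simp [hz _ h]
  have h3 : ∀ c : Fin 3, c.castSucc ≠ (3 : Fin 4) := by decide
  unfold TF
  by_cases hc : cls j = c.castSucc
  · -- the class `c`
    have hc3 : cls j ≠ 3 := by
      rw [hc]
      exact h3 c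
    have ho : oc cls c (some j) = false := by simp [oc, tm, hc]
    by_cases hw : w = 0
    · have hAF : AF c (cls j) r v w := by
        refine ⟨fun _ => hw, fun h => absurd hc h, ?_⟩
        rw [hw, dotProduct_zero]
      rw [if_pos hAF, if_pos (Or.inl hc), if_pos hc, mul_one]
      rw [hsum _ (1 / 2 ^ a) (if v = 0 then 1 else 0) ?_]
      · split_ifs <;> ring
      · intro π
        unfold tF
        have hal : al cls c p (some j) π = true ↔
            dg (cls j) (zb π) (m4 p) (dc c.castSucc) (dc c.castSucc) = 0 := by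
          simp [al, tm, hc]
        by_cases hd : dg (cls j) (zb π) (m4 p) (dc c.castSucc) (dc c.castSucc) = 0
        · rw [if_pos ⟨fun _ _ => rfl, fun _ => hal.2 hd, fun h => absurd hw h⟩, if_pos (hal.2 hd),
            if_pos hd, ho]
          simp [sg, hw]
        · rw [if_neg hd]
          by_cases hv : v = 0
          · rw [if_pos ⟨fun _ _ => rfl, fun h => absurd hv h, fun h => absurd hw h⟩,
              if_neg (fun h => hd (hal.1 h)), ho]
            simp [sg, hw, hv]
          · rw [if_neg (fun h => hd (hal.1 (h.2.1 hv))), if_neg hv, zero_mul]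
    · have hAF : ¬ AF c (cls j) r v w := fun h => hw (h.1 hc)
      rw [if_neg hAF]
      refine Finset.sum_eq_zero fun π _ => if_neg fun h => ?_
      have h5 := h.2.2 hw
      rw [ho] at h5
      exact absurd h5 (by decide)
  · have ho : oc cls c (some j) = true := by simp [oc, tm, hc]
    by_cases hc3 : cls j = 3
    · -- the class `3`
      have hal : ∀ π, al cls c p (some j) π = true ↔
          dg (cls j) (zb π) (m4 p) (dc c.castSucc) (dc c.castSucc) = 0 := by
        intro π
        simp [al, tm, hc3]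
      by_cases hvw : v ⬝ᵥ w = 0
      · have hAF : AF c (cls j) r v w := ⟨fun h => absurd h hc, fun _ h => absurd hc3 h, hvw⟩
        rw [if_pos hAF, if_pos (Or.inr hc3), if_neg hc]
        rw [hsum _ ((1 / 2 ^ a) * (1 / 2 ^ b)) ((if v = 0 then 1 else 0) * (1 / 2 ^ b)) ?_]
        · split_ifs <;> ring
        · intro π
          unfold tF
          by_cases hd : dg (cls j) (zb π) (m4 p) (dc c.castSucc) (dc c.castSucc) = 0
          · rw [if_pos ⟨fun _ _ => rfl, fun _ => (hal π).2 hd, fun _ => ho⟩, if_pos ((hal π).2 hd),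
              if_pos hd, ho]
            simp [sg, hvw]
          · rw [if_neg hd]
            by_cases hv : v = 0
            · rw [if_pos ⟨fun _ _ => rfl, fun h => absurd hv h, fun _ => ho⟩,
                if_neg (fun h => hd ((hal π).1 h)), ho]
              simp [sg, hv]
            · rw [if_neg (fun h => hd ((hal π).1 (h.2.1 hv))), if_neg hv, zero_mul, zero_mul]
      · have hAF : ¬ AF c (cls j) r v w := fun h => hvw h.2.2
        rw [if_neg hAF]
        have hneg : ∀ π : Pat, tF cls c W a b (fun i => !(π i)) p (some j) (v, w) =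
            -tF cls c W a b π p (some j) (v, w) := by
          intro π
          have e1 : ∀ x e : V2, dg (cls j) (zb fun i => !(π i)) (m4 p) x e =
              dg (cls j) (zb π) (m4 p) x e + om2 x e := by
            intro x e
            unfold dg
            rw [if_pos hc3, if_pos hc3, zb_not, ph_add]
          have e2 : al cls c p (some j) (fun i => !(π i)) = al cls c p (some j) π := by
            rw [Bool.eq_iff_iff, hal, hal, e1, om2_self, add_zero]
          have e3 : sg cls c (fun i => !(π i)) p j (v, w) = - sg cls c π p j (v, w) := by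
            unfold sg
            rw [if_pos hvw, if_pos hvw, e1, om2_xo, sn_add]
            push_cast
            ring
          unfold tF
          rw [e2]
          simp only [Option.elim, e3, hW j hc3 π p, Option.isSome_some, implies_true, true_and]
          by_cases hC : Pool.Agent.L7h56.IK.Cd (al cls c p (some j) π) (oc cls c (some j)) (v, w)
          · rw [if_pos hC, if_pos hC]
            ring
          · rw [if_neg hC, if_neg hC, neg_zero]
        let e5 : Pat ≃ Pat :=
          { toFun := fun π i => !(π i)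
            invFun := fun π i => !(π i)
            left_inv := fun π => funext fun i => by simp
            right_inv := fun π => funext fun i => by simp }
        have h5 := Equiv.sum_comp e5
          (fun π : Pat => tF cls c W a b π p (some j) (v, w))
        have h6 : ∑ π : Pat, tF cls c W a b (e5 π) p (some j) (v, w) =
            -∑ π : Pat, tF cls c W a b π p (some j) (v, w) := by
          rw [← Finset.sum_neg_distrib]
          exact Finset.sum_congr rfl fun π _ => hneg π
        rw [h6] at h5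
        linarith
    · -- the other classes
      have hal : ∀ π, al cls c p (some j) π = false := by
        intro π
        simp [al, tm, hc, hc3]
      by_cases hv : v = 0
      · have hAF : AF c (cls j) r v w := by
          refine ⟨fun h => absurd h hc, fun _ _ => hv, ?_⟩
          rw [hv, zero_dotProduct]
        rw [if_pos hAF, if_neg (by rintro (h | h); exacts [hc h, hc3 h]), if_neg hc]
        rw [hsum _ (1 / 2 ^ b) (1 / 2 ^ b) ?_]
        · ring
        · intro π
          unfold tF
          rw [if_pos ⟨fun _ _ => rfl, fun h => absurd hv h, fun _ => ho⟩, hal, ho]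
          simp [sg, hv]
      · have hAF : ¬ AF c (cls j) r v w := fun h => hv (h.2.1 hc hc3)
        rw [if_neg hAF]
        refine Finset.sum_eq_zero fun π _ => if_neg fun h => ?_
        have h5 := h.2.1 hv
        rw [hal] at h5
        exact absurd h5 (by decide)

lemma TF_none (cls : J → Fin 4) (c : Fin 3) (W : J → Pat → ℕ → ℝ) (a b : ℕ) (p : ℕ) (m : Mk r) :
    TF cls c W a b p none m = if m = (0, 0) then 1 else 0 := by
  unfold TF
  have hal : ∀ π, al cls c p none π = false := fun π => rfl
  have ho : oc cls c none = false := rfl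
  rw [Finset.sum_eq_single (fun _ => false)]
  · unfold tF
    rw [hal, ho]
    by_cases hm : m = (0, 0)
    · rw [if_pos hm, hm, if_pos ⟨fun i h => absurd h Bool.false_ne_true, fun h => absurd rfl h,
        fun h => absurd rfl h⟩]
      simp
    · rw [if_neg hm, if_neg]
      rintro ⟨-, h1, h2⟩
      apply hm
      refine Prod.ext ?_ ?_
      · by_contra h3
        exact absurd (h1 h3) (by decide)
      · by_contra h3
        exact absurd (h2 h3) (by decide)
  · intro π _ hπ
    refine if_neg fun h => hπ ?_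
    funext i
    by_contra h3
    have h4 : π i = true := by
      cases h5 : π i
      · exact absurd h5 h3
      · rfl
    exact absurd (h.1 i h4) Bool.false_ne_true
  · intro h
    exact absurd (mem_univ _) h

lemma fiberF (cls : J → Fin 4) (c : Fin 3) (W : J → Pat → ℕ → ℝ) (hW : WSym W cls) (a b : ℕ) (p : ℕ)
    (x : Option J × Mk r) :
    ∑ u ∈ univ.filter (fun u : Option (LabF cls c r) => fkF cls c u = x), WF cls c W a b p u =
      TF cls c W a b p x.1 x.2 := by
  obtain ⟨x, v, w⟩ := x
  rw [Finset.sum_filter, Fintype.sum_option]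
  cases x with
  | none =>
    have h1 : ∑ i : LabF cls c r, (if fkF cls c (some i) = ((none : Option J), (v, w)) then
        WF cls c W a b p (some i) else 0) = 0 := by
      refine Finset.sum_eq_zero fun i _ => if_neg ?_
      simp [fkF]
    rw [h1, add_zero, TF_none]
    simp only [fkF, Option.map_none, Option.elim, Prod.mk.injEq, true_and, WF]
    refine if_congr ?_ rfl rfl
    exact ⟨fun h => ⟨h.1.symm, h.2.symm⟩, fun h => ⟨h.1.symm, h.2.symm⟩⟩
  | some j =>
    have h0 : (if fkF cls c (none : Option (LabF cls c r)) = (some j, (v, w)) then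
        WF cls c W a b p (none : Option (LabF cls c r)) else 0) = 0 := by
      rw [if_neg]
      simp [fkF]
    rw [h0, zero_add, TF_some cls c W hW]
    set g : J × ((Fin r → ZMod 2) × (Fin r → ZMod 2)) × Bool → ℝ := fun i =>
      if (some i.1, i.2.1) = ((some j : Option J), (v, w)) then
        ((if cls i.1 = c.castSucc ∨ cls i.1 = 3 then
          ((if i.2.1.1 = 0 then sw W cls c 1 i.1 p else 0) + sw W cls c 0 i.1 p / 2 ^ a)
          else sw W cls c 0 i.1 p + sw W cls c 1 i.1 p) *
          (if cls i.1 = c.castSucc then 1 else 1 / 2 ^ b) / 2) else 0 with hg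
    have h1 : ∑ i : LabF cls c r, (if fkF cls c (some i) = ((some j : Option J), (v, w)) then
        WF cls c W a b p (some i) else 0) = ∑ i : LabF cls c r, g i.1 :=
      Finset.sum_congr rfl fun i _ => rfl
    have h2 : ∑ i ∈ univ.filter (fun i : J × ((Fin r → ZMod 2) × (Fin r → ZMod 2)) × Bool =>
        AF c (cls i.1) r i.2.1.1 i.2.1.2), g i = ∑ i : LabF cls c r, g i.1 :=
      Finset.sum_subtype _ (fun i => by simp) g
    rw [h1, ← h2, Finset.sum_filter, Fintype.sum_prod_type, Finset.sum_eq_single j]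
    · rw [Fintype.sum_prod_type, Finset.sum_eq_single (v, w)]
      · rw [Fintype.sum_bool]
        simp only [hg, if_true]
        split_ifs <;> ring
      · intro m _ hm
        refine Finset.sum_eq_zero fun h _ => ?_
        simp only [hg]
        rw [if_neg (fun h' => hm (Prod.mk.inj h').2), ite_self]
      · intro h
        exact absurd (mem_univ _) h
    · intro j' _ hj
      refine Finset.sum_eq_zero fun m _ => ?_
      simp only [hg]
      rw [if_neg (fun h' => hj (Option.some.inj (Prod.mk.inj h').1)), ite_self]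
    · intro h
      exact absurd (mem_univ _) h

lemma Sym_eqF (cls : J → Fin 4) (c : Fin 3) (l : Pr z y → Option (LabF cls c r)) :
    Pool.Agent.W262.RK.Sym (LF cls c r) (fun _ => 1) (Dl l) = OF fun p => (fkF cls c (l p)).2 := by
  rw [Sym_Dl]
  have h1 : ∏ p : Pr z y, ((l p).elim 1 fun _ => Jr 1 p) = (1 : ℝ) := by
    refine Finset.prod_eq_one fun p _ => ?_
    cases l p with
    | none => rfl
    | some i => exact Jr_one_left _
  rw [h1, mul_one]
  unfold OF
  refine Finset.prod_congr rfl fun p _ => ?_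
  refine Finset.prod_congr rfl fun q _ => ?_
  beta_reduce
  cases hq : l q with
  | none =>
    have e : Pool.Agent.W762.RK2.lk (LF cls c r) (none : Option (LabF cls c r)) (l p) = false := rfl
    rw [e]
    simp [fkF]
  | some i =>
    cases hp : l p with
    | none =>
      have e : Pool.Agent.W762.RK2.lk (LF cls c r) (some i) (none : Option (LabF cls c r)) = false := rfl
      rw [e]
      simp [fkF]
    | some k =>
      have e : Pool.Agent.W762.RK2.lk (LF cls c r) (some i) (some k) = LF cls c r i k := rfl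
      rw [e]
      simp only [fkF, Option.elim, LF, decide_eq_true_eq]
      by_cases hd : i.1.2.1.1 ⬝ᵥ k.1.2.1.2 = 0
      · simp [hd]
      · have hqp : q ≠ p := by
          intro h
          rw [h, hp] at hq
          rw [Option.some.inj hq] at hd
          exact hd i.2.2.2
        refine (if_pos hd).trans (Eq.trans ?_ (if_pos hd).symm)
        exact (if_neg hqp).symm

lemma rhsF (cls : J → Fin 4) (c : Fin 3) (W : J → Pat → ℕ → ℝ) (τ : Bool) (a b : ℕ)
    (l : Pr z y → Option (LabF cls c r)) :
    (if QF cls c τ r (univ.filter (fun i => Dl l i ≠ 1)) then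
      (∏ i : LabF cls c r, gm (bF W cls c a b r i) (Dl l i)) *
        Pool.Agent.W262.RK.Sym (LF cls c r) (fun _ => 1) (Dl l) else 0) =
      (∏ p : Pr z y, WF cls c W a b p (l p)) * GF τ fun p => (fkF cls c (l p)).2 := by
  have hn : ∀ i : LabF cls c r, Dl l i ≠ 1 ↔ ∃ p, l p = some i := by
    intro i
    unfold Dl
    rw [nb_ne_one]
    simp only [decide_eq_true_eq]
  have hm : ∀ i : LabF cls c r, i ∈ univ.filter (fun i => Dl l i ≠ 1) ↔ ∃ p, l p = some i := by
    intro i
    rw [mem_filter, ← hn]
    exact ⟨fun h => h.2, fun h => ⟨mem_univ _, h⟩⟩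
  have hc : QF cls c τ r (univ.filter (fun i => Dl l i ≠ 1)) ↔
      Spf τ fun p => (fkF cls c (l p)).2 := by
    unfold QF Spf
    refine forall_congr' fun w => imp_congr Iff.rfl ?_
    constructor
    · rintro ⟨i, h1, h2⟩
      obtain ⟨p, hp⟩ := (hm i).1 h1
      refine ⟨p, ?_⟩
      beta_reduce
      rw [hp]
      exact h2
    · rintro ⟨p, hp⟩
      beta_reduce at hp
      cases hx : l p with
      | none =>
        rw [hx] at hp
        simp [fkF] at hp
      | some i =>
        rw [hx] at hp
        exact ⟨i, (hm i).2 ⟨p, hx⟩, hp⟩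
  rw [Pool.Agent.L7h19.RP.prod_gm (fun i : LabF cls c r => bF W cls c a b r i) l, Sym_eqF]
  unfold GF
  by_cases h : Spf τ fun p => (fkF cls c (l p)).2
  · rw [if_pos (hc.2 h), if_pos h]
    rfl
  · rw [if_neg fun h' => h (hc.1 h'), if_neg h, mul_zero]

/-- **S_EFD** -/
theorem s_EFD : S_EFD := by
  classical
  intro J _ _ cls c W τ a b r z y _ hW
  rw [sum_Tup fun s => avE W (fun E => FK τ a b r (mc cls s) E c) s,
    Finset.sum_filter,
    sum_Tup fun d : LabF cls c r → ℕ =>
      if QF cls c τ r (univ.filter (fun i => d i ≠ 1)) then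
        (∏ i : LabF cls c r, gm (bF W cls c a b r i) (d i)) *
          Pool.Agent.W262.RK.Sym (LF cls c r) (fun _ => 1) d else 0]
  rw [Finset.sum_congr rfl fun ξ _ => lhsF cls c W τ a b ξ,
    Finset.sum_congr rfl fun l _ => rhsF cls c W τ a b l]
  rw [← Finset.sum_fiberwise univ (fun (l : Pr z y → Option (LabF cls c r)) => fun p => fkF cls c (l p))]
  have h1 : ∀ ζ : Pr z y → Option J × Mk r,
      ∑ l ∈ univ.filter (fun l : Pr z y → Option (LabF cls c r) => (fun p => fkF cls c (l p)) = ζ),
        (∏ p : Pr z y, WF cls c W a b p (l p)) * (GF τ fun p => (fkF cls c (l p)).2) =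
      (∏ p : Pr z y, TF cls c W a b p (ζ p).1 (ζ p).2) * GF τ fun p => (ζ p).2 := by
    intro ζ
    have h2 : (univ.filter fun l : Pr z y → Option (LabF cls c r) => (fun p => fkF cls c (l p)) = ζ) =
        Fintype.piFinset (fun p => univ.filter (fun x : Option (LabF cls c r) => fkF cls c x = ζ p)) := by
      ext l
      simp only [Finset.mem_filter, Finset.mem_univ, true_and, Fintype.mem_piFinset, funext_iff]
    rw [Finset.prod_congr rfl fun (p : Pr z y) _ => (fiberF cls c W hW a b p (ζ p)).symm,
      Finset.prod_univ_sum, Finset.sum_mul, h2]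
    refine Finset.sum_congr rfl fun l hl => ?_
    rw [Fintype.mem_piFinset] at hl
    have h3 : ∀ p, fkF cls c (l p) = ζ p := fun p => (Finset.mem_filter.1 (hl p)).2
    simp only [h3]
  rw [Finset.sum_congr rfl fun ζ _ => h1 ζ,
    sum_arr (fun (ξ : Pr z y → Option J) (μ : Pr z y → Mk r) =>
      (∏ p : Pr z y, TF cls c W a b p (ξ p) (μ p)) * GF τ μ)]

end Pool.Agent.L7h60.FD
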